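import Pool.Agent.Helper76.ND.StD

/-!
# Project ND, module Ch: the chain
-/

set_option autoImplicit false

namespace Pool.Agent.Helper27.ND

open Pool.Agent.Helper76.ND Finset

/-- **Ch** -/
theorem hCh (hOn : StOn) (hTw : StTw) (hNs : StNs) (hPe : StPe) (hQs : StQs) : StCh := by
  obtain ⟨C0, hC0, hOn⟩ := hOn
  obtain ⟨hper, -, -, hmass, -, -, -⟩ := hNs
  obtain ⟨hPe1, -⟩ := hPe
  obtain ⟨hqs, -, -, -⟩ := hQs
  let L : ℕ → ℕ → ℕ → ℝ := fun n m K =>
    ∑ s ∈ range K, ∑ M ∈ range (3 ^ n), |ns n n s M - ns m n s M / 3 ^ (n - m)|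
  have hL2 : ∀ n m K, m ≤ n → L n m K ≤ 2 := by
    intro n m K hmn
    have h1 : ∀ s, ∑ M ∈ range (3 ^ n), |ns n n s M - ns m n s M / 3 ^ (n - m)| ≤
        2 * qs n s := by
      intro s
      have h2 : ∑ M ∈ range (3 ^ n), ns m n s M = 3 ^ (n - m) * qs n s := by
        have h3 : 3 ^ n = 3 ^ m * 3 ^ (n - m) := by
          rw [← pow_add]
          congr 1
          omega
        rw [h3, hPe1 (fun M => ns m n s M) (3 ^ m) (3 ^ (n - m)) (fun M => hper m n s M), hmass]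
        push_cast
        ring
      calc ∑ M ∈ range (3 ^ n), |ns n n s M - ns m n s M / 3 ^ (n - m)|
          ≤ ∑ M ∈ range (3 ^ n), (ns n n s M + ns m n s M / 3 ^ (n - m)) := by
            refine sum_le_sum fun M _ => ?_
            have ha := ns_nonneg n n s M
            have hb : 0 ≤ ns m n s M / 3 ^ (n - m) := div_nonneg (ns_nonneg m n s M) (by positivity)
            rw [abs_le]
            constructor <;> linarith
        _ = qs n s + (3 ^ (n - m) * qs n s) / 3 ^ (n - m) := by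
            rw [sum_add_distrib, hmass, ← sum_div, h2]
        _ = 2 * qs n s := by
            field_simp
            ring
    calc L n m K ≤ ∑ s ∈ range K, 2 * qs n s := sum_le_sum fun s _ => h1 s
      _ = 2 * ∑ s ∈ range K, qs n s := by rw [mul_sum]
      _ ≤ 2 * 1 := mul_le_mul_of_nonneg_left (hqs n K) (by norm_num)
      _ = 2 := by norm_num
  set a : ℝ := 1 / 200 with ha
  have ha0 : 0 < a := by rw [ha]; norm_num
  set κ : ℝ := (10 / 9 : ℝ) ^ a - 1 with hκ
  have hκ0 : 0 < κ := by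
    have := Real.one_lt_rpow (x := (10 / 9 : ℝ)) (by norm_num) ha0
    rw [hκ]
    linarith
  set C4 : ℝ := C0 / κ with hC4
  have hC40 : 0 < C4 := div_pos hC0 hκ0
  have hC4κ : C4 * κ = C0 := div_mul_cancel₀ _ hκ0.ne'
  set C3 : ℝ := C4 + C0 + 2 * (20 : ℝ) ^ a with hC3
  have h20 : 0 < (20 : ℝ) ^ a := Real.rpow_pos_of_pos (by norm_num) _
  have claim : ∀ n m K, 1 ≤ m → m ≤ n →
      L n m K ≤ C3 * (m : ℝ) ^ (-a) - C4 * (n : ℝ) ^ (-a) := by
    intro n
    induction n using Nat.strong_induction_on with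
    | _ n ih =>
    intro m K hm hmn
    have hm0 : (0 : ℝ) < m := by exact_mod_cast hm
    have hn0 : (0 : ℝ) < n := by exact_mod_cast (lt_of_lt_of_le hm hmn)
    have hnm : (n : ℝ) ^ (-a) ≤ (m : ℝ) ^ (-a) :=
      Real.rpow_le_rpow_of_nonpos hm0 (by exact_mod_cast hmn) (by linarith)
    have hma0 : 0 < (m : ℝ) ^ (-a) := Real.rpow_pos_of_pos hm0 _
    have hna0 : 0 < (n : ℝ) ^ (-a) := Real.rpow_pos_of_pos hn0 _
    have hlow : (C0 + 2 * (20 : ℝ) ^ a) * (m : ℝ) ^ (-a) ≤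
        C3 * (m : ℝ) ^ (-a) - C4 * (n : ℝ) ^ (-a) := by
      have := mul_le_mul_of_nonneg_left hnm hC40.le
      rw [hC3]
      linarith
    by_cases hA : 17 * n ≤ 20 * m
    · refine (hOn n m K (le_trans hm hmn) hmn hA).trans (le_trans ?_ hlow)
      have h1 : C0 * (n : ℝ) ^ (-a) ≤ C0 * (m : ℝ) ^ (-a) := mul_le_mul_of_nonneg_left hnm hC0.le
      have h2 : 0 ≤ 2 * (20 : ℝ) ^ a * (m : ℝ) ^ (-a) := by positivity
      have h3 : C0 * (n : ℝ) ^ (-(1 / 200) : ℝ) = C0 * (n : ℝ) ^ (-a) := by rw [ha]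
      rw [h3]
      linarith
    by_cases hB : n < 20
    · refine (hL2 n m K hmn).trans (le_trans ?_ hlow)
      have h1 : (20 : ℝ) ^ (-a) ≤ (m : ℝ) ^ (-a) := by
        refine Real.rpow_le_rpow_of_nonpos hm0 ?_ (by linarith)
        have : m ≤ 20 := by omega
        exact_mod_cast this
      have h2 : (20 : ℝ) ^ a * (20 : ℝ) ^ (-a) = 1 := by
        rw [← Real.rpow_add (by norm_num)]
        simp
      have h3 : 2 * (20 : ℝ) ^ a * (20 : ℝ) ^ (-a) ≤ 2 * (20 : ℝ) ^ a * (m : ℝ) ^ (-a) :=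
        mul_le_mul_of_nonneg_left h1 (by positivity)
      have h4 : 0 ≤ C0 * (m : ℝ) ^ (-a) := by positivity
      have h5 : 2 * (20 : ℝ) ^ a * (20 : ℝ) ^ (-a) = 2 := by rw [mul_assoc, h2, mul_one]
      linarith
    · push Not at hA hB
      obtain ⟨e, he⟩ : ∃ e, e = (17 * n + 19) / 20 := ⟨_, rfl⟩
      have he1 : 17 * n ≤ 20 * e := by omega
      have he2 : 10 * e ≤ 9 * n := by omega
      have he3 : e < n := by omega
      have he4 : m ≤ e := by omega
      have he0 : (0 : ℝ) < e := by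
        have : 0 < e := by omega
        exact_mod_cast this
      have h1 : L n m K ≤ L n e K + L e m K := hTw m e n K he4 he3.le
      have h2 : L n e K ≤ C0 * (n : ℝ) ^ (-a) := hOn n e K (by omega) he3.le he1
      have h3 := ih e he3 m K hm he4
      have h4 : (1 + κ) * (n : ℝ) ^ (-a) ≤ (e : ℝ) ^ (-a) := by
        have h5 : (e : ℝ) ≤ 9 / 10 * n := by
          have : (10 : ℝ) * e ≤ 9 * n := by exact_mod_cast he2
          linarith
        have h6 : (9 / 10 * n : ℝ) ^ (-a) ≤ (e : ℝ) ^ (-a) :=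
          Real.rpow_le_rpow_of_nonpos he0 h5 (by linarith)
        have h7 : (9 / 10 * n : ℝ) ^ (-a) = (1 + κ) * (n : ℝ) ^ (-a) := by
          rw [Real.mul_rpow (by norm_num) hn0.le, hκ]
          congr 1
          rw [Real.rpow_neg (by norm_num), ← Real.inv_rpow (by norm_num)]
          norm_num
        rw [← h7]
        exact h6
      have h8 : C4 * ((1 + κ) * (n : ℝ) ^ (-a)) ≤ C4 * (e : ℝ) ^ (-a) :=
        mul_le_mul_of_nonneg_left h4 hC40.le
      have h9 : C4 * ((1 + κ) * (n : ℝ) ^ (-a)) = C4 * (n : ℝ) ^ (-a) + C0 * (n : ℝ) ^ (-a) := by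
        rw [← hC4κ]
        ring
      linarith
  refine ⟨C3, by positivity, ?_⟩
  intro m n K hm hmn
  have h := claim n m K hm hmn
  have hn0 : (0 : ℝ) < n := by exact_mod_cast (lt_of_lt_of_le hm hmn)
  have h2 : 0 ≤ C4 * (n : ℝ) ^ (-a) := by positivity
  have h3 : L n m K ≤ C3 * (m : ℝ) ^ (-a) := by linarith
  exact h3

end Pool.Agent.Helper27.ND
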