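import Pool.Agent.Helper76.ND.StE

/-!
# Project ND, module Ct: counting
-/

set_option autoImplicit false

namespace Pool.Agent.Helper27.ND

open Pool.Agent.Helper76.ND Finset

/-- **Ct** -/
theorem hCt (hIt : StIt) (hPo : StPo) : StCt := by
  classical
  obtain ⟨C, hC, hIt⟩ := hIt
  obtain ⟨-, hgg, -, -, -, hgg6, -, -, -⟩ := hPo
  refine ⟨25 * C, by positivity, ?_⟩
  intro B n hB
  have hB1 : (1 : ℝ) < B := by exact_mod_cast (by omega : 1 < B)
  set δ : ℝ := Real.log B ^ (-(1 / 1600) : ℝ) with hδ
  have hδ0 : 0 < δ := Real.rpow_pos_of_pos (Real.log_pos hB1) _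
  induction n using Nat.strong_induction_on with
  | _ n ih =>
  rcases Nat.eq_zero_or_pos n with hn | hn
  · subst hn
    simp
  · have hn0 : (0 : ℝ) < n := by exact_mod_cast hn
    obtain ⟨n', hn'⟩ : ∃ n', n' = 3 * n / 5 := ⟨_, rfl⟩
    have hlt : n' < n := by omega
    have h1 := ih n' hlt
    have hsub : (Icc 1 n).filter (fun N => ∀ k, B < S^[k] N) ⊆
        (Icc 1 n').filter (fun N => ∀ k, B < S^[k] N) ∪
        (Ioc n' n).filter (fun N => ∀ k, B < S^[k] N) := by
      intro N hN
      simp only [mem_union, mem_filter, mem_Icc, mem_Ioc] at hN ⊢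
      rcases Nat.lt_or_ge n' N with h | h
      · exact Or.inr ⟨⟨h, hN.1.2⟩, hN.2⟩
      · exact Or.inl ⟨⟨hN.1.1, h⟩, hN.2⟩
    set A := (Ioc n' n).filter (fun N => ∀ k, B < S^[k] N) with hA
    set y : ℝ := 4 * n / 5 with hy
    have hy0 : 0 < y := by rw [hy]; positivity
    have hmu0 : ∀ N : ℕ, 0 ≤ mu y N := fun N => div_nonneg (hgg _).1 hy0.le
    have h2 : (A.card : ℝ) * (2 / 25 / y) ≤ C * δ := by
      have hfl : n ≤ ⌊2 * y⌋₊ := by
        apply Nat.le_floor
        rw [hy]
        linarith
      calc (A.card : ℝ) * (2 / 25 / y) = ∑ N ∈ A, (2 / 25 / y) := by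
            rw [sum_const, nsmul_eq_mul]
        _ ≤ ∑ N ∈ A, mu y N * fB B N := by
            refine sum_le_sum fun N hN => ?_
            rw [hA, mem_filter, mem_Ioc] at hN
            have hf : fB B N = 1 := by
              unfold fB
              rw [if_pos hN.2]
            rw [hf, mul_one]
            unfold mu
            have h5 : 3 * n < 5 * N := by omega
            have h6 : (3 : ℝ) * n < 5 * N := by exact_mod_cast h5
            have h7 : (N : ℝ) ≤ n := by exact_mod_cast hN.1.2
            refine div_le_div_of_nonneg_right (hgg6 _ ?_ ?_) hy0.le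
            · rw [le_div_iff₀ hy0, hy]
              linarith
            · rw [div_le_iff₀ hy0, hy]
              linarith
        _ ≤ ∑ N ∈ Icc 1 ⌊2 * y⌋₊, mu y N * fB B N := by
            refine sum_le_sum_of_subset_of_nonneg ?_ fun N _ _ => ?_
            · intro N hN
              rw [hA, mem_filter, mem_Ioc] at hN
              rw [mem_Icc]
              omega
            · refine mul_nonneg (hmu0 N) ?_
              unfold fB
              split_ifs <;> norm_num
        _ ≤ C * δ := hIt B y hB hy0
    have h3 : (A.card : ℝ) ≤ 10 * C * n * δ := by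
      have h4 : (A.card : ℝ) = ((A.card : ℝ) * (2 / 25 / y)) * (25 / 2 * y) := by
        field_simp
      rw [h4]
      calc ((A.card : ℝ) * (2 / 25 / y)) * (25 / 2 * y) ≤ (C * δ) * (25 / 2 * y) :=
            mul_le_mul_of_nonneg_right h2 (by positivity)
        _ = 10 * C * n * δ := by rw [hy]; ring
    have h5 : (n' : ℝ) ≤ 3 / 5 * n := by
      have : 5 * n' ≤ 3 * n := by omega
      have h6 : (5 : ℝ) * n' ≤ 3 * n := by exact_mod_cast this
      linarith
    have h6 : 25 * C * n' * δ ≤ 25 * C * (3 / 5 * n) * δ := by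
      refine mul_le_mul_of_nonneg_right ?_ hδ0.le
      exact mul_le_mul_of_nonneg_left h5 (by positivity)
    have h7 : (((Icc 1 n).filter (fun N => ∀ k, B < S^[k] N)).card : ℝ) ≤
        (((Icc 1 n').filter (fun N => ∀ k, B < S^[k] N)).card : ℝ) + (A.card : ℝ) := by
      have := (card_le_card hsub).trans (card_union_le _ _)
      exact_mod_cast this
    have h8 : 25 * C * (3 / 5 * n) * δ + 10 * C * n * δ = 25 * C * n * δ := by ring
    linarith

end Pool.Agent.Helper27.ND
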