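import Pool.Agent.Helper76.ND.StE

/-!
# Project ND, module Fi: the final theorem
-/

set_option autoImplicit false

namespace Pool.Agent.Helper27.ND

open Pool.Agent.Helper76.ND Finset

/-- an iterate of the shortcut map is an iterate of the map `T` -/
theorem fi_iter (N : ℕ) (hN : 1 ≤ N) : ∀ k, ∃ j, S^[k] N = T^[j] N := by
  intro k
  induction k with
  | zero => exact ⟨0, rfl⟩
  | succ k ih =>
    obtain ⟨j, hj⟩ := ih
    have hpos : 1 ≤ S^[k] N := S_iter_pos hN k
    rw [Function.iterate_succ_apply']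
    set m := S^[k] N with hm
    rcases Nat.mod_two_eq_zero_or_one m with h | h
    · refine ⟨j + 1, ?_⟩
      rw [Function.iterate_succ_apply', ← hj]
      unfold S T
      rw [if_pos h, if_pos h]
    · refine ⟨j + 2, ?_⟩
      rw [Function.iterate_succ_apply', Function.iterate_succ_apply', ← hj]
      have e1 : S m = (3 * m - 1) / 2 := by
        unfold S
        rw [if_neg (by omega)]
      have e2 : T m = 3 * m - 1 := by
        unfold T
        rw [if_neg (by omega)]
      have e3 : T (3 * m - 1) = (3 * m - 1) / 2 := by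
        unfold T
        rw [if_pos (by omega)]
      rw [e1, e2, e3]

/-- **Fi** -/
theorem hFi (hCt : StCt) : StFi := by
  classical
  obtain ⟨C, hC, hCt⟩ := hCt
  have h1 : ∀ (B x : ℕ), 2 ≤ B →
      (((Icc 1 x).filter (fun n => ∀ k, B < T^[k] n)).card : ℝ) ≤
      C * x * Real.log B ^ (-(1 / 1600) : ℝ) := by
    intro B x hB
    refine le_trans ?_ (hCt B x hB)
    have hsub : (Icc 1 x).filter (fun n => ∀ k, B < T^[k] n) ⊆
        (Icc 1 x).filter (fun N => ∀ k, B < S^[k] N) := by
      intro N hN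
      simp only [mem_filter, mem_Icc] at hN ⊢
      refine ⟨hN.1, fun k => ?_⟩
      obtain ⟨j, hj⟩ := fi_iter N hN.1.1 k
      rw [hj]
      exact hN.2 j
    exact_mod_cast card_le_card hsub
  refine ⟨⟨C, hC, ?_⟩, ?_⟩
  · intro B x hB
    have hB1 : (1 : ℝ) < B := by exact_mod_cast (by omega : 1 < B)
    have h2 := h1 B x hB
    rw [Real.rpow_neg (Real.log_pos hB1).le, ← div_eq_mul_inv] at h2
    exact h2
  · intro F hF
    rw [Metric.tendsto_atTop]
    intro ε hε
    have ht : Filter.Tendsto (fun B : ℕ => C * Real.log B ^ (-(1 / 1600) : ℝ)) Filter.atTop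
        (nhds (C * 0)) := by
      refine Filter.Tendsto.const_mul _ ?_
      exact (tendsto_rpow_neg_atTop (by norm_num)).comp
        (Real.tendsto_log_atTop.comp tendsto_natCast_atTop_atTop)
    rw [mul_zero] at ht
    have hev : ∀ᶠ B : ℕ in Filter.atTop, C * Real.log B ^ (-(1 / 1600) : ℝ) < ε / 2 :=
      ht.eventually_lt_const (by positivity)
    obtain ⟨B, hB2, hBε⟩ := ((Filter.eventually_ge_atTop 2).and hev).exists
    obtain ⟨n0, hn0⟩ := Filter.eventually_atTop.1 (hF.eventually_gt_atTop (B : ℝ))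
    obtain ⟨x0, hx0⟩ := exists_nat_gt (2 * (n0 : ℝ) / ε)
    refine ⟨x0 + 1, fun x hx => ?_⟩
    have hx1 : 1 ≤ x := by omega
    have hxpos : (0 : ℝ) < x := by exact_mod_cast hx1
    set G := (Icc 1 x).filter (fun n => ∃ k, ((T^[k] n : ℕ) : ℝ) < F n) with hG
    set H := (Icc 1 x).filter (fun n => ¬ ∃ k, ((T^[k] n : ℕ) : ℝ) < F n) with hH
    have hcard : G.card + H.card = x := by
      have := card_filter_add_card_filter_not (s := Icc 1 x)
        (fun n => ∃ k, ((T^[k] n : ℕ) : ℝ) < F n)
      rw [Nat.card_Icc, Nat.add_sub_cancel] at this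
      exact this
    have hHsub : H ⊆ Icc 1 n0 ∪ (Icc 1 x).filter (fun n => ∀ k, B < T^[k] n) := by
      intro n hn
      rw [hH, mem_filter, mem_Icc] at hn
      rw [mem_union, mem_Icc, mem_filter, mem_Icc]
      rcases Nat.lt_or_ge n0 n with h | h
      · refine Or.inr ⟨hn.1, fun k => ?_⟩
        have h3 := hn.2
        push Not at h3
        have h4 : (B : ℝ) < ((T^[k] n : ℕ) : ℝ) := lt_of_lt_of_le (hn0 n h.le) (h3 k)
        exact_mod_cast h4
      · exact Or.inl ⟨hn.1.1, h⟩
    have hHc : (H.card : ℝ) ≤ n0 + C * x * Real.log B ^ (-(1 / 1600) : ℝ) := by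
      have h3 := (card_le_card hHsub).trans (card_union_le _ _)
      rw [Nat.card_Icc, Nat.add_sub_cancel] at h3
      have h4 : (H.card : ℝ) ≤ (n0 : ℝ) +
          (((Icc 1 x).filter (fun n => ∀ k, B < T^[k] n)).card : ℝ) := by exact_mod_cast h3
      exact h4.trans (add_le_add le_rfl (h1 B x hB2))
    have hcard' : (G.card : ℝ) + H.card = x := by exact_mod_cast hcard
    have hn0x : (n0 : ℝ) / x < ε / 2 := by
      have h5 : (x0 : ℝ) < x := by exact_mod_cast (by omega : x0 < x)
      have h6 : 2 * (n0 : ℝ) / ε < x := hx0.trans h5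
      rw [div_lt_iff₀ hε] at h6
      rw [div_lt_iff₀ hxpos]
      linarith
    have hGx : (G.card : ℝ) / x - 1 = -((H.card : ℝ) / x) := by
      have : (G.card : ℝ) = x - H.card := by linarith
      rw [this]
      field_simp
      ring
    rw [Real.dist_eq, hGx, abs_neg, abs_of_nonneg (by positivity)]
    calc (H.card : ℝ) / x ≤ (n0 + C * x * Real.log B ^ (-(1 / 1600) : ℝ)) / x :=
          div_le_div_of_nonneg_right hHc hxpos.le
      _ = n0 / x + C * Real.log B ^ (-(1 / 1600) : ℝ) := by
          field_simp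
      _ < ε / 2 + ε / 2 := add_lt_add hn0x hBε
      _ = ε := by ring

end Pool.Agent.Helper27.ND
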