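import Pool.Agent.Helper76.ND.StD

/-!
# Project ND, module Lb: the main `L^1` bound
-/

set_option autoImplicit false

namespace Pool.Agent.Helper27.ND

open Pool.Agent.Helper76.ND Finset

/-- reindexing of a double sum -/
theorem lb_reidx (K : ℕ) (f : ℕ → ℕ → ℝ) (hf : ∀ b s, 0 ≤ f b s) :
    ∑ s ∈ range (K + 1), ∑ b ∈ Icc 3 s, f b (s - b) ≤
      ∑ b ∈ Icc 3 K, ∑ s ∈ range (K + 1), f b s := by
  have h1 : ∑ s ∈ range (K + 1), ∑ b ∈ Icc 3 s, f b (s - b) =
      ∑ b ∈ Icc 3 K, ∑ s ∈ Icc b K, f b (s - b) := by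
    refine sum_comm' ?_
    intro s b
    simp only [mem_range, mem_Icc]
    omega
  rw [h1]
  refine sum_le_sum fun b hb => ?_
  rw [mem_Icc] at hb
  have h2 : ∑ s ∈ Icc b K, f b (s - b) = ∑ s ∈ (Icc b K).image (fun s => s - b), f b s := by
    rw [sum_image]
    intro x hx y hy hxy
    simp only [coe_Icc, Set.mem_Icc] at hx hy
    simp only at hxy
    omega
  rw [h2]
  refine sum_le_sum_of_subset_of_nonneg ?_ fun s _ _ => hf b s
  intro s hs
  simp only [mem_image, mem_Icc, mem_range] at hs ⊢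
  obtain ⟨a, ha, rfl⟩ := hs
  omega

/-- **Lb** -/
theorem hLb (hPb : StPb) (hQs : StQs) (hYz : StYz) (hWc : StWc) (hPl : StPl) (hOb : StOb) :
    StLb := by
  obtain ⟨-, hP3, hPsi0, -, -, -, hPsiY, -⟩ := hPb
  obtain ⟨hqs, -, -, -⟩ := hQs
  obtain ⟨-, -, -, -, -, -, -, hX27, -, -⟩ := hYz
  obtain ⟨hW1, hW2⟩ := hWc
  obtain ⟨-, hPl2⟩ := hPl
  obtain ⟨hO0, -, hOmul, hOsum, -, -, hORn⟩ := hOb
  intro n e k K c u hen
  induction k using Nat.strong_induction_on generalizing c u with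
  | _ k ih =>
  rcases Nat.lt_or_ge k 3 with hk | hk
  · have hk0 : k / 3 = 0 := Nat.div_eq_of_lt hk
    rw [hk0]
    have h1 : ∑ s ∈ range (K + 1), O1 n e (Rn n k s c u) ≤ O1 n e c := by
      calc ∑ s ∈ range (K + 1), O1 n e (Rn n k s c u)
          ≤ ∑ s ∈ range (K + 1), qs k s * O1 n e c := sum_le_sum fun s _ => hORn n e k s c u
        _ = (∑ s ∈ range (K + 1), qs k s) * O1 n e c := by rw [sum_mul]
        _ ≤ 1 * O1 n e c := mul_le_mul_of_nonneg_right (hqs k _) (hO0 n e c)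
        _ = O1 n e c := one_mul _
    refine h1.trans ((hPl2 n e c hen).trans (le_of_eq ?_))
    congr 1
    refine sum_congr rfl fun ξ _ => ?_
    simp [Psi]
  · obtain ⟨k, rfl⟩ : ∃ k', k = k' + 3 := ⟨k - 3, by omega⟩
    have hk3 : (k + 3) / 3 = k / 3 + 1 := by omega
    rw [hk3]
    set Ω : Finset (ZMod (3 ^ n)) := univ.filter (fun ξ : ZMod (3 ^ n) => 3 ^ e * ξ ≠ 0) with hΩ
    let A : ℕ → ℝ := fun b => ∑ ξ ∈ Ω, ‖Fh n c ξ‖ ^ 2 *
      (fb b (Xf n (u * ξ)) * Psi K (k / 3) (fun a => 27 * Xf n (u * ξ) (b + a)))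
    have hA0 : ∀ b, 0 ≤ A b := fun b => sum_nonneg fun ξ _ =>
      mul_nonneg (by positivity) (mul_nonneg (fb_nonneg _ _) (hPsi0 _ _ _))
    have step1 : ∀ s, O1 n e (Rn n (k + 3) s c u) ≤
        ∑ b ∈ Icc 3 s, P3 b * O1 n e (Rn n k (s - b) (cb n b c u) (27 * hf n ^ b * u)) := by
      intro s
      have e1 : Rn n (k + 3) s c u = fun r => ∑ b ∈ Icc 3 s,
          (fun b r => P3 b * Rn n k (s - b) (cb n b c u) (27 * hf n ^ b * u) r) b r := by
        funext r
        exact hW1 n k s c u r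
      rw [e1]
      refine (hOsum n e (Icc 3 s) _).trans (le_of_eq ?_)
      refine sum_congr rfl fun b _ => ?_
      show O1 n e (fun r => P3 b * Rn n k (s - b) (cb n b c u) (27 * hf n ^ b * u) r) = _
      rw [hOmul, abs_of_nonneg (P3_nonneg b)]
    have step2 : ∑ s ∈ range (K + 1), O1 n e (Rn n (k + 3) s c u) ≤
        ∑ b ∈ Icc 3 K, ∑ s ∈ range (K + 1),
          P3 b * O1 n e (Rn n k s (cb n b c u) (27 * hf n ^ b * u)) := by
      refine (sum_le_sum fun s _ => step1 s).trans ?_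
      exact lb_reidx K (fun b s => P3 b * O1 n e (Rn n k s (cb n b c u) (27 * hf n ^ b * u)))
        (fun b s => mul_nonneg (P3_nonneg b) (hO0 _ _ _))
    have step3 : ∀ b ∈ Icc 3 K, ∑ s ∈ range (K + 1),
        P3 b * O1 n e (Rn n k s (cb n b c u) (27 * hf n ^ b * u)) ≤ P3 b * Real.sqrt (A b) := by
      intro b hb
      rw [mem_Icc] at hb
      rw [← mul_sum]
      refine mul_le_mul_of_nonneg_left ?_ (P3_nonneg b)
      refine (ih k (by omega) (cb n b c u) (27 * hf n ^ b * u)).trans (le_of_eq ?_)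
      congr 1
      refine sum_congr rfl fun ξ _ => ?_
      rw [hW2 n b c u ξ hb.1, mul_assoc]
      congr 2
      refine hPsiY K (k / 3) _ _ fun p => ?_
      obtain ⟨m, hm⟩ := hX27 n (u * ξ) b p
      refine ⟨m, ?_⟩
      rw [← hm]
      congr 1
      ring
    have step4 : ∑ b ∈ Icc 3 K, P3 b * Real.sqrt (A b) ≤
        Real.sqrt (∑ b ∈ Icc 3 K, P3 b * A b) := by
      refine Real.le_sqrt_of_sq_le ?_
      have h := Finset.sum_sq_le_sum_mul_sum_of_sq_le_mul (Icc 3 K)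
        (r := fun b => P3 b * Real.sqrt (A b)) (f := fun b => P3 b) (g := fun b => P3 b * A b)
        (fun b _ => P3_nonneg b) (fun b _ => mul_nonneg (P3_nonneg b) (hA0 b))
        (fun b _ => le_of_eq (by
          show (P3 b * Real.sqrt (A b)) ^ 2 = P3 b * (P3 b * A b)
          rw [mul_pow, Real.sq_sqrt (hA0 b)]
          ring))
      refine h.trans ?_
      have h2 : 0 ≤ ∑ b ∈ Icc 3 K, P3 b * A b :=
        sum_nonneg fun b _ => mul_nonneg (P3_nonneg b) (hA0 b)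
      calc (∑ b ∈ Icc 3 K, P3 b) * ∑ b ∈ Icc 3 K, P3 b * A b
          ≤ 1 * ∑ b ∈ Icc 3 K, P3 b * A b := mul_le_mul_of_nonneg_right (hP3 K) h2
        _ = _ := one_mul _
    refine step2.trans ((sum_le_sum step3).trans (step4.trans (le_of_eq ?_)))
    congr 1
    simp only [A, mul_sum]
    rw [sum_comm]
    refine sum_congr rfl fun ξ _ => ?_
    rw [Psi, mul_sum]
    refine sum_congr rfl fun b _ => ?_
    ring

end Pool.Agent.Helper27.ND
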