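import Pool.Agent.Helper76.ND.StD

/-!
# Project ND, module Og: the good terms
-/

set_option autoImplicit false

namespace Pool.Agent.Helper27.ND

open Pool.Agent.Helper76.ND Finset

/-- **Og** -/
theorem hOg (hPb : StPb) (hF : StF) (hYz : StYz) (hLb : StLb) (hOr : StOr) (hPl : StPl)
    (hCo : StCo) : StOg := by
  obtain ⟨-, -, hPsi0, -, hPsiS, -, -, -⟩ := hPb
  obtain ⟨C0, hC0, hFC⟩ := hF
  obtain ⟨hhf, -, -, -, -, -, -, -, -, -⟩ := hYz
  obtain ⟨hPl1, -⟩ := hPl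
  obtain ⟨-, hCo2, -⟩ := hCo
  have hanti : ∀ (K k j : ℕ) (X : ℕ → ℝ), Psi K (k + j) X ≤ Psi K k X := by
    intro K k j X
    induction j with
    | zero => exact le_rfl
    | succ j ih => exact (hPsiS K (k + j) X).trans ih
  set D : ℝ := C0 * (1 / 75 : ℝ) ^ (-(13 / 25) : ℝ) with hD
  have hD0 : 0 < D := by positivity
  refine ⟨Real.sqrt D, Real.sqrt_pos.2 hD0, ?_⟩
  intro n e t k K hn he hke hnek
  have hn0 : (0 : ℝ) < n := by exact_mod_cast hn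
  refine (hLb n e (n - k) K (cg n k t) (3 ^ k * hf n ^ t) he).trans ?_
  have hunit : ∀ z : ZMod (3 ^ n), hf n ^ t * z = 0 → z = 0 := by
    intro z hz
    have h1 : (2 : ZMod (3 ^ n)) ^ t * (hf n ^ t * z) = z := by
      rw [← mul_assoc, ← mul_pow, hhf, one_pow, one_mul]
    rw [← h1, hz, mul_zero]
  have hcast : ((3 : ZMod (3 ^ n)) ^ n) = 0 := by
    have : ((3 ^ n : ℕ) : ZMod (3 ^ n)) = 0 := ZMod.natCast_self _
    exact_mod_cast this
  have key : ∀ ξ : ZMod (3 ^ n), 3 ^ e * ξ ≠ 0 →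
      Psi K ((n - k) / 3) (Xf n (3 ^ k * hf n ^ t * ξ)) ≤ D * (n : ℝ) ^ (-(13 / 25) : ℝ) := by
    intro ξ hξ
    obtain ⟨n', -, hcls, hz, hnz⟩ := hOr n (3 ^ k * hf n ^ t * ξ)
    have h1 : e - k < n' := by
      by_contra hcon
      push Not at hcon
      obtain ⟨d, hd⟩ := Nat.exists_eq_add_of_le hcon
      apply hξ
      apply hunit
      have h2 : hf n ^ t * (3 ^ e * ξ) = 3 ^ d * (3 ^ n' * (3 ^ k * hf n ^ t * ξ)) := by
        have h3 : e = k + (n' + d) := by omega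
        rw [h3]
        ring
      rw [h2, hz, mul_zero]
    have h2 : n' ≤ n - k := by
      by_contra hcon
      push Not at hcon
      apply hnz (n - k) hcon
      have h4 : (3 : ZMod (3 ^ n)) ^ (n - k) * 3 ^ k = 3 ^ n := by
        rw [← pow_add]
        congr 1
        omega
      have h3 : (3 : ZMod (3 ^ n)) ^ (n - k) * (3 ^ k * hf n ^ t * ξ) =
          (3 ^ (n - k) * 3 ^ k) * (hf n ^ t * ξ) := by ring
      rw [h3, h4, hcast, zero_mul]
    have h3 : n' / 3 ≤ (n - k) / 3 := Nat.div_le_div_right h2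
    obtain ⟨j, hj⟩ := Nat.exists_eq_add_of_le h3
    rw [hj]
    refine (hanti K (n' / 3) j _).trans ?_
    refine (hFC K (n' / 3) n' _ (by omega) (by omega) hcls).trans ?_
    rw [hD, mul_assoc]
    refine mul_le_mul_of_nonneg_left ?_ hC0.le
    rw [← Real.mul_rpow (by norm_num) hn0.le]
    refine Real.rpow_le_rpow_of_nonpos (by positivity) ?_ (by norm_num)
    have h4 : n ≤ 75 * (n' / 3 + 1) := by omega
    have h5 : (n : ℝ) ≤ 75 * (((n' / 3 : ℕ) : ℝ) + 1) := by exact_mod_cast h4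
    linarith
  have hsum : ∑ ξ ∈ univ.filter (fun ξ : ZMod (3 ^ n) => 3 ^ e * ξ ≠ 0),
      ‖Fh n (cg n k t) ξ‖ ^ 2 * Psi K ((n - k) / 3) (Xf n (3 ^ k * hf n ^ t * ξ)) ≤
      D * ((n : ℝ) ^ (-(13 / 25) : ℝ) * (3 ^ n / 2 ^ t * q t k)) := by
    calc ∑ ξ ∈ univ.filter (fun ξ : ZMod (3 ^ n) => 3 ^ e * ξ ≠ 0),
          ‖Fh n (cg n k t) ξ‖ ^ 2 * Psi K ((n - k) / 3) (Xf n (3 ^ k * hf n ^ t * ξ))
        ≤ ∑ ξ ∈ univ.filter (fun ξ : ZMod (3 ^ n) => 3 ^ e * ξ ≠ 0),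
          ‖Fh n (cg n k t) ξ‖ ^ 2 * (D * (n : ℝ) ^ (-(13 / 25) : ℝ)) := by
          refine sum_le_sum fun ξ hξ => ?_
          rw [mem_filter] at hξ
          exact mul_le_mul_of_nonneg_left (key ξ hξ.2) (by positivity)
      _ ≤ ∑ ξ : ZMod (3 ^ n), ‖Fh n (cg n k t) ξ‖ ^ 2 * (D * (n : ℝ) ^ (-(13 / 25) : ℝ)) :=
          sum_le_sum_of_subset_of_nonneg (filter_subset _ _) fun ξ _ _ => by positivity
      _ = (3 ^ n * ∑ r, cg n k t r ^ 2) * (D * (n : ℝ) ^ (-(13 / 25) : ℝ)) := by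
          rw [← sum_mul, hPl1]
      _ ≤ (3 ^ n * (q t k / 2 ^ t)) * (D * (n : ℝ) ^ (-(13 / 25) : ℝ)) := by
          refine mul_le_mul_of_nonneg_right ?_ (by positivity)
          exact mul_le_mul_of_nonneg_left (hCo2 n k t) (by positivity)
      _ = D * ((n : ℝ) ^ (-(13 / 25) : ℝ) * (3 ^ n / 2 ^ t * q t k)) := by ring
  refine (Real.sqrt_le_sqrt hsum).trans (le_of_eq ?_)
  have hn2 : Real.sqrt ((n : ℝ) ^ (-(13 / 25) : ℝ)) = (n : ℝ) ^ (-(13 / 50) : ℝ) := by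
    rw [Real.sqrt_eq_rpow, ← Real.rpow_mul hn0.le]
    norm_num
  clear_value D
  rw [Real.sqrt_mul hD0.le, Real.sqrt_mul (by positivity), hn2, mul_assoc]

end Pool.Agent.Helper27.ND
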